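import Pool.Agent.Q206.Intro.SE

set_option autoImplicit false

/-!
Bounded truth table like enumeration reducibility: transitivity and the countability of the set of
minimal covers of the degree of the complement of the halting set.
-/

namespace Q206.Btte

open Encodable Pool.Agent.Helper227 Q206.En
open Nat.Partrec (Code)

/-- An enumeration operator: a c.e. set of pairs `(x, u)`. -/
def IsOperator (Ψ : Set (ℕ × ℕ)) : Prop := REPred fun p : ℕ × ℕ => p ∈ Ψ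

/-- `Ψ^B = {x : ∃ u, (x, u) ∈ Ψ ∧ D_u ⊆ B}`. -/
def app (Ψ : Set (ℕ × ℕ)) (B : Set ℕ) : Set ℕ := {x | ∃ u, (x, u) ∈ Ψ ∧ D u ⊆ B}

/-- `⋃ ε_x` where `ε_x = {D_u : (x, u) ∈ Ψ}`. -/
def supp (Ψ : Set (ℕ × ℕ)) (x : ℕ) : Set ℕ := {y | ∃ u, (x, u) ∈ Ψ ∧ y ∈ D u}

/-- `Ψ` is btt-like. -/
def BttLike (Ψ : Set (ℕ × ℕ)) : Prop := ∃ n : ℕ, ∀ x, (supp Ψ x).encard ≤ n

/-- `A ≤_btte B`. -/
def Le (A B : Set ℕ) : Prop := ∃ Ψ, IsOperator Ψ ∧ BttLike Ψ ∧ A = app Ψ B

theorem D_two_pow (n : ℕ) : D (2 ^ n) = {n} := by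
  ext m
  rw [D, Set.mem_ofPred_eq, Nat.testBit_two_pow]
  simp [eq_comm]

/-- many-one reductions -/
theorem le_of_comp {B : Set ℕ} {f : ℕ → ℕ} (hf : Computable f) : Le {n | f n ∈ B} B := by
  refine ⟨{p | p.2 = 2 ^ f p.1}, ?_, ⟨1, fun x => ?_⟩, ?_⟩
  · have h1 : S1 fun p : ℕ × ℕ => p.2 = 2 ^ p.1 :=
      S1.of_prim (Primrec.eq.comp Primrec.snd (prim_two_pow.comp Primrec.fst))
    have h2 := h1.comp_computable (f := fun p : ℕ × ℕ => (f p.1, p.2))
      ((hf.comp Computable.fst).pair Computable.snd)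
    exact h2.re
  · have : supp {p : ℕ × ℕ | p.2 = 2 ^ f p.1} x ⊆ {f x} := by
      rintro y ⟨u, hu, hy⟩
      have hu' : u = 2 ^ f x := hu
      rw [hu', D_two_pow] at hy
      exact hy
    refine (Set.encard_le_encard this).trans ?_
    simp
  · ext n
    constructor
    · intro h
      refine ⟨2 ^ f n, rfl, ?_⟩
      rw [D_two_pow]
      rintro y rfl
      exact h
    · rintro ⟨u, hu, h⟩
      have hu' : u = 2 ^ f n := hu
      rw [hu', D_two_pow] at h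
      exact h rfl

theorem le_rfl' (B : Set ℕ) : Le B B := by
  have := le_of_comp (B := B) (f := id) Computable.id
  exact this

theorem le_trans' {A B C : Set ℕ} (h1 : Le A B) (h2 : Le B C) : Le A C := by
  obtain ⟨Φ, hΦ, ⟨m, hm⟩, rfl⟩ := h1
  obtain ⟨Ψ, hΨ, ⟨n, hn⟩, rfl⟩ := h2
  have sΦ : S1 fun p : ℕ × ℕ => p ∈ Φ := S1.of_re hΦ
  have sΨ : S1 fun p : ℕ × ℕ => p ∈ Ψ := S1.of_re hΨ
  refine ⟨{p | ∃ u, (p.1, u) ∈ Φ ∧ (∀ y ∈ lst u, ∃ v, (y, v) ∈ Ψ ∧ ∀ z ∈ lst v, z ∈ D p.2) ∧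
    (∀ z ∈ lst p.2, ∃ y, y ∈ D u ∧ ∃ v, (y, v) ∈ Ψ ∧ z ∈ D v)}, ?_, ⟨n * m, ?_⟩, ?_⟩
  · refine S1.re (S1.ex (p := fun (p : ℕ × ℕ) u => (p.1, u) ∈ Φ ∧
      (∀ y ∈ lst u, ∃ v, (y, v) ∈ Ψ ∧ ∀ z ∈ lst v, z ∈ D p.2) ∧
      (∀ z ∈ lst p.2, ∃ y, y ∈ D u ∧ ∃ v, (y, v) ∈ Ψ ∧ z ∈ D v)) ?_)
    refine S1.and ?_ (S1.and ?_ ?_)
    · exact sΦ.comp ((Primrec.fst.comp Primrec.fst).pair Primrec.snd)
    · refine S1.all_mem (α := (ℕ × ℕ) × ℕ) (f := fun x => lst x.2)
        (p := fun x y => ∃ v, (y, v) ∈ Ψ ∧ ∀ z ∈ lst v, z ∈ D x.1.2) ?_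
        (prim_lst.comp Primrec.snd)
      refine S1.ex (α := ((ℕ × ℕ) × ℕ) × ℕ) (p := fun x v => (x.2, v) ∈ Ψ ∧
        ∀ z ∈ lst v, z ∈ D x.1.1.2) (S1.and ?_ ?_)
      · exact sΨ.comp ((Primrec.snd.comp Primrec.fst).pair Primrec.snd)
      · refine S1.all_mem (α := (((ℕ × ℕ) × ℕ) × ℕ) × ℕ) (f := fun x => lst x.2)
          (p := fun x z => z ∈ D x.1.1.1.2) ?_ (prim_lst.comp Primrec.snd)
        refine S1.of_prim ?_
        exact prim_testBit.comp (Primrec.snd.comp (Primrec.fst.comp (Primrec.fst.comp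
          (Primrec.fst.comp Primrec.fst)))) Primrec.snd
    · refine S1.all_mem (α := (ℕ × ℕ) × ℕ) (f := fun x => lst x.1.2)
        (p := fun x z => ∃ y, y ∈ D x.2 ∧ ∃ v, (y, v) ∈ Ψ ∧ z ∈ D v) ?_
        (prim_lst.comp (Primrec.snd.comp Primrec.fst))
      refine S1.ex (α := ((ℕ × ℕ) × ℕ) × ℕ) (p := fun x y => y ∈ D x.1.2 ∧
        ∃ v, (y, v) ∈ Ψ ∧ x.2 ∈ D v) (S1.and ?_ ?_)
      · refine S1.of_prim ?_
        exact prim_testBit.comp (Primrec.snd.comp (Primrec.fst.comp Primrec.fst)) Primrec.snd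
      · refine S1.ex (α := (((ℕ × ℕ) × ℕ) × ℕ) × ℕ) (p := fun x v => (x.2, v) ∈ Ψ ∧
          x.1.2 ∈ D v) (S1.and ?_ ?_)
        · exact sΨ.comp ((Primrec.snd.comp Primrec.fst).pair Primrec.snd)
        · refine S1.of_prim ?_
          exact prim_testBit.comp Primrec.snd (Primrec.snd.comp (Primrec.fst.comp Primrec.fst))
  · intro x
    have h1 : supp {p : ℕ × ℕ | ∃ u, (p.1, u) ∈ Φ ∧
        (∀ y ∈ lst u, ∃ v, (y, v) ∈ Ψ ∧ ∀ z ∈ lst v, z ∈ D p.2) ∧
        (∀ z ∈ lst p.2, ∃ y, y ∈ D u ∧ ∃ v, (y, v) ∈ Ψ ∧ z ∈ D v)} x ⊆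
        ⋃ y ∈ supp Φ x, supp Ψ y := by
      rintro z ⟨w, ⟨u, hu, -, h3⟩, hz⟩
      obtain ⟨y, hy, v, hv, hz2⟩ := h3 z (mem_lst.2 hz)
      exact Set.mem_iUnion₂.2 ⟨y, ⟨u, hu, hy⟩, v, hv, hz2⟩
    refine (Set.encard_le_encard h1).trans ?_
    have hfin : (supp Φ x).Finite := Set.finite_of_encard_le_coe (hm x)
    have hgen : ∀ F : Finset ℕ, (⋃ y ∈ F, supp Ψ y).encard ≤ (n : ℕ∞) * (F.card : ℕ∞) := by
      intro F
      induction F using Finset.induction_on with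
      | empty => simp
      | insert a F ha ih =>
        rw [Finset.set_biUnion_insert, Finset.card_insert_of_notMem ha]
        refine (Set.encard_union_le _ _).trans ?_
        push_cast
        rw [mul_add, mul_one, add_comm]
        exact add_le_add ih (hn a)
    have h2 := hgen hfin.toFinset
    have h3 : (⋃ y ∈ hfin.toFinset, supp Ψ y) = ⋃ y ∈ supp Φ x, supp Ψ y := by
      ext z
      simp
    rw [h3] at h2
    refine h2.trans ?_
    have h4 : (hfin.toFinset.card : ℕ∞) ≤ m := by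
      rw [← hfin.encard_eq_coe_toFinset_card]
      exact hm x
    push_cast
    exact mul_le_mul_right h4 _
  · ext x
    constructor
    · rintro ⟨u, hu, hD⟩
      have h1 : ∀ y, ∃ v, y ∈ D u → (y, v) ∈ Ψ ∧ D v ⊆ C := by
        intro y
        by_cases hy : y ∈ D u
        · obtain ⟨v, h1, h2⟩ := hD hy
          exact ⟨v, fun _ => ⟨h1, h2⟩⟩
        · exact ⟨0, fun h => absurd h hy⟩
      choose V hV using h1
      obtain ⟨w, hw⟩ := exists_D ((lst u).toFinset.biUnion fun y => (lst (V y)).toFinset)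
      have hmem : ∀ z, z ∈ D w ↔ ∃ y, y ∈ D u ∧ z ∈ D (V y) := by
        intro z
        rw [hw]
        simp only [Finset.coe_biUnion, List.coe_toFinset, Set.mem_iUnion, Set.mem_ofPred_eq,
          exists_prop, mem_lst]
      refine ⟨w, ⟨u, hu, ?_, ?_⟩, ?_⟩
      · intro y hy
        rw [mem_lst] at hy
        exact ⟨V y, (hV y hy).1, fun z hz => (hmem z).2 ⟨y, hy, mem_lst.1 hz⟩⟩
      · intro z hz
        obtain ⟨y, hy, hz2⟩ := (hmem z).1 (mem_lst.1 hz)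
        exact ⟨y, hy, V y, (hV y hy).1, hz2⟩
      · intro z hz
        obtain ⟨y, hy, hz2⟩ := (hmem z).1 hz
        exact (hV y hy).2 hz2
    · rintro ⟨w, ⟨u, hu, h1, -⟩, hw⟩
      refine ⟨u, hu, fun y hy => ?_⟩
      obtain ⟨v, hv, h2⟩ := h1 y (mem_lst.2 hy)
      exact ⟨v, hv, fun z hz => hw (h2 z (mem_lst.2 hz))⟩

theorem le_inter {X Y B : Set ℕ} (h1 : Le X B) (h2 : Le Y B) : Le (X ∩ Y) B := by
  obtain ⟨Φ, hΦ, ⟨m, hm⟩, rfl⟩ := h1
  obtain ⟨Ψ, hΨ, ⟨n, hn⟩, rfl⟩ := h2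
  have sΦ : S1 fun p : ℕ × ℕ => p ∈ Φ := S1.of_re hΦ
  have sΨ : S1 fun p : ℕ × ℕ => p ∈ Ψ := S1.of_re hΨ
  refine ⟨{p | ∃ u, (p.1, u) ∈ Φ ∧ ∃ v, (p.1, v) ∈ Ψ ∧ (∀ z ∈ lst p.2, z ∈ D u ∨ z ∈ D v) ∧
    (∀ z ∈ lst u, z ∈ D p.2) ∧ ∀ z ∈ lst v, z ∈ D p.2}, ?_, ⟨m + n, ?_⟩, ?_⟩
  · refine S1.re (S1.ex (p := fun (p : ℕ × ℕ) u => (p.1, u) ∈ Φ ∧ ∃ v, (p.1, v) ∈ Ψ ∧
      (∀ z ∈ lst p.2, z ∈ D u ∨ z ∈ D v) ∧ (∀ z ∈ lst u, z ∈ D p.2) ∧
      ∀ z ∈ lst v, z ∈ D p.2) (S1.and ?_ ?_))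
    · exact sΦ.comp ((Primrec.fst.comp Primrec.fst).pair Primrec.snd)
    · refine S1.ex (α := (ℕ × ℕ) × ℕ) (p := fun x v => (x.1.1, v) ∈ Ψ ∧
        (∀ z ∈ lst x.1.2, z ∈ D x.2 ∨ z ∈ D v) ∧ (∀ z ∈ lst x.2, z ∈ D x.1.2) ∧
        ∀ z ∈ lst v, z ∈ D x.1.2) (S1.and ?_ (S1.and ?_ (S1.and ?_ ?_)))
      · exact sΨ.comp ((Primrec.fst.comp (Primrec.fst.comp Primrec.fst)).pair Primrec.snd)
      · refine S1.all_mem (α := ((ℕ × ℕ) × ℕ) × ℕ) (f := fun x => lst x.1.1.2)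
          (p := fun x z => z ∈ D x.1.2 ∨ z ∈ D x.2) (S1.or ?_ ?_)
          (prim_lst.comp (Primrec.snd.comp (Primrec.fst.comp Primrec.fst)))
        · exact S1.of_prim (prim_testBit.comp (Primrec.snd.comp (Primrec.fst.comp Primrec.fst))
            Primrec.snd)
        · exact S1.of_prim (prim_testBit.comp (Primrec.snd.comp Primrec.fst) Primrec.snd)
      · refine S1.all_mem (α := ((ℕ × ℕ) × ℕ) × ℕ) (f := fun x => lst x.1.2)
          (p := fun x z => z ∈ D x.1.1.2) ?_ (prim_lst.comp (Primrec.snd.comp Primrec.fst))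
        exact S1.of_prim (prim_testBit.comp (Primrec.snd.comp (Primrec.fst.comp
          (Primrec.fst.comp Primrec.fst))) Primrec.snd)
      · refine S1.all_mem (α := ((ℕ × ℕ) × ℕ) × ℕ) (f := fun x => lst x.2)
          (p := fun x z => z ∈ D x.1.1.2) ?_ (prim_lst.comp Primrec.snd)
        exact S1.of_prim (prim_testBit.comp (Primrec.snd.comp (Primrec.fst.comp
          (Primrec.fst.comp Primrec.fst))) Primrec.snd)
  · intro x
    refine (Set.encard_le_encard (t := supp Φ x ∪ supp Ψ x) ?_).trans ?_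
    · rintro z ⟨w, ⟨u, hu, v, hv, h1, -⟩, hz⟩
      rcases h1 z (mem_lst.2 hz) with h | h
      · exact Or.inl ⟨u, hu, h⟩
      · exact Or.inr ⟨v, hv, h⟩
    · refine (Set.encard_union_le _ _).trans ?_
      push_cast
      exact add_le_add (hm x) (hn x)
  · ext x
    constructor
    · rintro ⟨⟨u, hu, hD⟩, v, hv, hD'⟩
      obtain ⟨w, hw⟩ := exists_D ((lst u).toFinset ∪ (lst v).toFinset)
      have hmem : ∀ z, z ∈ D w ↔ z ∈ D u ∨ z ∈ D v := by
        intro z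
        rw [hw]
        simp only [Finset.coe_union, List.coe_toFinset, Set.mem_union, Set.mem_ofPred_eq, mem_lst]
      refine ⟨w, ⟨u, hu, v, hv, ?_, ?_, ?_⟩, ?_⟩
      · intro z hz
        exact (hmem z).1 (mem_lst.1 hz)
      · intro z hz
        exact (hmem z).2 (Or.inl (mem_lst.1 hz))
      · intro z hz
        exact (hmem z).2 (Or.inr (mem_lst.1 hz))
      · intro z hz
        rcases (hmem z).1 hz with h | h
        · exact hD h
        · exact hD' h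
    · rintro ⟨w, ⟨u, hu, v, hv, -, h1, h2⟩, hw⟩
      exact ⟨⟨u, hu, fun z hz => hw (h1 z (mem_lst.2 hz))⟩,
        v, hv, fun z hz => hw (h2 z (mem_lst.2 hz))⟩

/-- The join of two sets. -/
def join (X Y : Set ℕ) : Set ℕ := {n | (n % 2 = 0 ∧ n / 2 ∈ X) ∨ (n % 2 = 1 ∧ n / 2 ∈ Y)}

theorem mem_join_even {X Y : Set ℕ} {n : ℕ} : 2 * n ∈ join X Y ↔ n ∈ X := by
  have h1 : 2 * n % 2 = 0 := by omega
  have h2 : 2 * n / 2 = n := by omega
  simp [join, h2]

theorem mem_join_odd {X Y : Set ℕ} {n : ℕ} : 2 * n + 1 ∈ join X Y ↔ n ∈ Y := by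
  have h1 : (2 * n + 1) % 2 = 1 := by omega
  have h2 : (2 * n + 1) / 2 = n := by omega
  simp [join, h1, h2]

theorem left_le_join (X Y : Set ℕ) : Le X (join X Y) := by
  have := le_of_comp (B := join X Y) (f := fun n => 2 * n)
    (Primrec.nat_mul.comp (Primrec.const 2) Primrec.id).to_comp
  simpa only [mem_join_even, Set.ofPred_mem_eq] using this

theorem right_le_join (X Y : Set ℕ) : Le Y (join X Y) := by
  have := le_of_comp (B := join X Y) (f := fun n => 2 * n + 1)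
    (Primrec.nat_add.comp (Primrec.nat_mul.comp (Primrec.const 2) Primrec.id)
      (Primrec.const 1)).to_comp
  simpa only [mem_join_odd, Set.ofPred_mem_eq] using this

theorem join_le {X Y B : Set ℕ} (h1 : Le X B) (h2 : Le Y B) : Le (join X Y) B := by
  obtain ⟨Φ, hΦ, ⟨m, hm⟩, rfl⟩ := h1
  obtain ⟨Ψ, hΨ, ⟨n, hn⟩, rfl⟩ := h2
  have sΦ : S1 fun p : ℕ × ℕ => p ∈ Φ := S1.of_re hΦ
  have sΨ : S1 fun p : ℕ × ℕ => p ∈ Ψ := S1.of_re hΨ
  have pmod : Primrec fun p : ℕ × ℕ => p.1 % 2 :=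
    Primrec.nat_mod.comp Primrec.fst (Primrec.const 2)
  have pdiv : Primrec fun p : ℕ × ℕ => (p.1 / 2, p.2) :=
    (Primrec.nat_div.comp Primrec.fst (Primrec.const 2)).pair Primrec.snd
  refine ⟨{p | (p.1 % 2 = 0 ∧ (p.1 / 2, p.2) ∈ Φ) ∨ (p.1 % 2 = 1 ∧ (p.1 / 2, p.2) ∈ Ψ)}, ?_,
    ⟨m + n, ?_⟩, ?_⟩
  · refine S1.re (S1.or (S1.and ?_ (sΦ.comp pdiv)) (S1.and ?_ (sΨ.comp pdiv)))
    · exact S1.of_prim (Primrec.eq.comp pmod (Primrec.const 0))
    · exact S1.of_prim (Primrec.eq.comp pmod (Primrec.const 1))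
  · intro x
    refine (Set.encard_le_encard (t := supp Φ (x / 2) ∪ supp Ψ (x / 2)) ?_).trans ?_
    · rintro z ⟨w, h | h, hz⟩
      · exact Or.inl ⟨w, h.2, hz⟩
      · exact Or.inr ⟨w, h.2, hz⟩
    · refine (Set.encard_union_le _ _).trans ?_
      push_cast
      exact add_le_add (hm _) (hn _)
  · ext x
    constructor
    · rintro (⟨h, u, hu, h1⟩ | ⟨h, u, hu, h1⟩)
      · exact ⟨u, Or.inl ⟨h, hu⟩, h1⟩
      · exact ⟨u, Or.inr ⟨h, hu⟩, h1⟩
    · rintro ⟨u, ⟨h, hu⟩ | ⟨h, hu⟩, h1⟩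
      · exact Or.inl ⟨h, u, hu, h1⟩
      · exact Or.inr ⟨h, u, hu, h1⟩

/-- The halting set. -/
def K : Set ℕ := {e | (Code.eval (Denumerable.ofNat Code e) e).Dom}

theorem compl_le_K {C : Set ℕ} (hC : REPred fun n => n ∈ C) : Le Cᶜ Kᶜ := by
  have h1 : REPred fun n : ℕ => n.unpair.1 ∈ C :=
    hC.comp (Computable.fst.comp Primrec.unpair.to_comp)
  obtain ⟨c, hc⟩ := Code.exists_code.1 h1
  have hdom : ∀ n, (c.eval n).Dom ↔ n.unpair.1 ∈ C := by
    intro n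
    rw [hc]
    simp [Part.assert]
  have h2 : Computable fun n : ℕ => encode (Code.curry c n) :=
    (Primrec.encode.comp (Code.primrec₂_curry.comp (Primrec.const c) Primrec.id)).to_comp
  have h3 := le_of_comp (B := Kᶜ) h2
  have h4 : {n : ℕ | encode (Code.curry c n) ∈ Kᶜ} = Cᶜ := by
    ext n
    rw [Set.mem_ofPred_eq, Set.mem_compl_iff, Set.mem_compl_iff, K, Set.mem_ofPred_eq,
      Denumerable.ofNat_encode, Code.eval_curry, hdom, Nat.unpair_pair]
  rwa [h4] at h3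

/-- `z` is in the support of column `i` of the operator with code `e.unpair.1` at stage `s`. -/
def Q (e i s z : ℕ) : Prop :=
  ∃ u < s, (Code.evaln s (Denumerable.ofNat Code e.unpair.1) (Nat.pair i u)).isSome = true ∧
    u.testBit z = true

theorem prim_Q : PrimrecPred fun x : (ℕ × ℕ) × ℕ × ℕ => Q x.1.1 x.1.2 x.2.1 x.2.2 := by
  refine PP.ex_lt (α := (ℕ × ℕ) × ℕ × ℕ) (f := fun x => x.2.1)
    (p := fun x u => (Code.evaln x.2.1 (Denumerable.ofNat Code x.1.1.unpair.1)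
      (Nat.pair x.1.2 u)).isSome = true ∧ u.testBit x.2.2 = true) ?_
    (Primrec.fst.comp Primrec.snd)
  refine PrimrecPred.and ?_ ?_
  · have h1 : Primrec fun x : ((ℕ × ℕ) × ℕ × ℕ) × ℕ =>
        (Code.evaln x.1.2.1 (Denumerable.ofNat Code x.1.1.1.unpair.1)
          (Nat.pair x.1.1.2 x.2)).isSome := by
      refine Primrec.option_isSome.comp (Code.primrec_evaln.comp
        (((Primrec.fst.comp (Primrec.snd.comp Primrec.fst)).pair ?_).pair ?_))
      · exact (Primrec.ofNat Code).comp (Primrec.fst.comp (Primrec.unpair.comp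
          (Primrec.fst.comp (Primrec.fst.comp Primrec.fst))))
      · exact Primrec₂.natPair.comp (Primrec.snd.comp (Primrec.fst.comp Primrec.fst)) Primrec.snd
    exact Primrec.eq.comp h1 (Primrec.const true)
  · exact prim_testBit.comp Primrec.snd (Primrec.snd.comp (Primrec.snd.comp Primrec.fst))

theorem Q_mono {e i s t z : ℕ} (h : s ≤ t) (hq : Q e i s z) : Q e i t z := by
  obtain ⟨u, hu, h1, h2⟩ := hq
  refine ⟨u, lt_of_lt_of_le hu h, ?_, h2⟩
  rw [Option.isSome_iff_exists] at h1 ⊢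
  obtain ⟨y, hy⟩ := h1
  exact ⟨y, Code.evaln_mono h hy⟩

theorem Q_lt {e i s z : ℕ} (hq : Q e i s z) : z < s := by
  obtain ⟨u, hu, -, h2⟩ := hq
  exact (lt_of_mem_D (show z ∈ D u from h2)).trans hu

/-- `z` enters the support of column `i` while the support has at most `e.unpair.2` elements. -/
def R (e i z : ℕ) : Prop :=
  ∃ s, ∃ l : List ℕ, (l.length ≤ e.unpair.2 ∧ ∀ y < s, Q e i s y → y ∈ l) ∧ Q e i s z

theorem R_finite (e i : ℕ) : {z | R e i z}.Finite := by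
  by_contra hinf
  obtain ⟨F, hF, hcard⟩ := Set.Infinite.exists_subset_card_eq hinf (e.unpair.2 + 1)
  have hne : F.Nonempty := by
    rw [← Finset.card_pos]
    omega
  have h1 : ∀ z : ℕ, ∃ s, z ∈ F → ∃ l : List ℕ,
      (l.length ≤ e.unpair.2 ∧ ∀ y < s, Q e i s y → y ∈ l) ∧ Q e i s z := by
    intro z
    by_cases hz : z ∈ F
    · obtain ⟨s, hs⟩ := hF hz
      exact ⟨s, fun _ => hs⟩
    · exact ⟨0, fun h => absurd h hz⟩
  choose S hS using h1
  obtain ⟨z0, hz0, hmax⟩ := Finset.exists_max_image F S hne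
  obtain ⟨l, ⟨hl, hl2⟩, -⟩ := hS z0 hz0
  have h2 : F ⊆ l.toFinset := by
    intro z hz
    obtain ⟨l', -, hq⟩ := hS z hz
    have hq' := Q_mono (hmax z hz) hq
    rw [List.mem_toFinset]
    exact hl2 z (Q_lt hq') hq'
  have h3 := (Finset.card_le_card h2).trans (List.toFinset_card_le l)
  omega

/-- The c.e. set of the construction. -/
def C : Set ℕ := {n | ∃ e < n.unpair.1 + 1, ∃ i < n.unpair.1 + 1, R e i (2 * n)}

theorem re_C : REPred fun n => n ∈ C := by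
  have h0 : S1 fun x : (ℕ × ℕ) × ℕ => R x.1.1 x.1.2 x.2 := by
    refine S1.ex (α := (ℕ × ℕ) × ℕ) (p := fun x s => ∃ l : List ℕ,
      (l.length ≤ x.1.1.unpair.2 ∧ ∀ y < s, Q x.1.1 x.1.2 s y → y ∈ l) ∧ Q x.1.1 x.1.2 s x.2) ?_
    refine S1.ex (α := ((ℕ × ℕ) × ℕ) × ℕ) (p := fun x (l : List ℕ) =>
      (l.length ≤ x.1.1.1.unpair.2 ∧ ∀ y < x.2, Q x.1.1.1 x.1.1.2 x.2 y → y ∈ l) ∧
        Q x.1.1.1 x.1.1.2 x.2 x.1.2) (S1.of_prim ?_)
    have pe : Primrec fun x : (((ℕ × ℕ) × ℕ) × ℕ) × List ℕ => x.1.1.1.1 :=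
      Primrec.fst.comp (Primrec.fst.comp (Primrec.fst.comp Primrec.fst))
    have pi : Primrec fun x : (((ℕ × ℕ) × ℕ) × ℕ) × List ℕ => x.1.1.1.2 :=
      Primrec.snd.comp (Primrec.fst.comp (Primrec.fst.comp Primrec.fst))
    have pz : Primrec fun x : (((ℕ × ℕ) × ℕ) × ℕ) × List ℕ => x.1.1.2 :=
      Primrec.snd.comp (Primrec.fst.comp Primrec.fst)
    have ps : Primrec fun x : (((ℕ × ℕ) × ℕ) × ℕ) × List ℕ => x.1.2 :=
      Primrec.snd.comp Primrec.fst
    refine PrimrecPred.and (PrimrecPred.and ?_ ?_) ?_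
    · exact Primrec.nat_le.comp (Primrec.list_length.comp Primrec.snd)
        (Primrec.snd.comp (Primrec.unpair.comp pe))
    · refine PP.all_lt (α := (((ℕ × ℕ) × ℕ) × ℕ) × List ℕ) (f := fun x => x.1.2)
        (p := fun x y => Q x.1.1.1.1 x.1.1.1.2 x.1.2 y → y ∈ x.2) ?_ ps
      have h1 : PrimrecPred fun x : ((((ℕ × ℕ) × ℕ) × ℕ) × List ℕ) × ℕ =>
          ¬ Q x.1.1.1.1.1 x.1.1.1.1.2 x.1.1.2 x.2 ∨ x.2 ∈ x.1.2 := by
        refine PrimrecPred.or (PrimrecPred.not ?_) ?_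
        · exact prim_Q.comp (((pe.comp Primrec.fst).pair (pi.comp Primrec.fst)).pair
            ((ps.comp Primrec.fst).pair Primrec.snd))
        · have h2 := PP.ex_mem (α := ((((ℕ × ℕ) × ℕ) × ℕ) × List ℕ) × ℕ)
            (f := fun x => x.1.2) (p := fun x b => b = x.2)
            (Primrec.eq.comp Primrec.snd (Primrec.snd.comp Primrec.fst))
            (Primrec.snd.comp Primrec.fst)
          exact h2.of_eq fun x => by simp
      exact h1.of_eq fun x => imp_iff_not_or.symm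
    · exact prim_Q.comp ((pe.pair pi).pair (ps.pair pz))
  have h1 : S1 fun n : ℕ => n ∈ C := by
    have h2 : S1 fun n : ℕ => ∃ e, ∃ i, (e < n.unpair.1 + 1 ∧ i < n.unpair.1 + 1) ∧
        R e i (2 * n) := by
      refine S1.ex (p := fun n e => ∃ i, (e < n.unpair.1 + 1 ∧ i < n.unpair.1 + 1) ∧
        R e i (2 * n)) ?_
      refine S1.ex (α := ℕ × ℕ) (p := fun x i => (x.2 < x.1.unpair.1 + 1 ∧
        i < x.1.unpair.1 + 1) ∧ R x.2 i (2 * x.1)) (S1.and (S1.of_prim ?_) ?_)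
      · have pn : Primrec fun x : (ℕ × ℕ) × ℕ => x.1.1.unpair.1 + 1 :=
          Primrec.succ.comp (Primrec.fst.comp (Primrec.unpair.comp
            (Primrec.fst.comp Primrec.fst)))
        exact PrimrecPred.and (Primrec.nat_lt.comp (Primrec.snd.comp Primrec.fst) pn)
          (Primrec.nat_lt.comp Primrec.snd pn)
      · exact h0.comp (f := fun x : (ℕ × ℕ) × ℕ => ((x.1.2, x.2), 2 * x.1.1))
          (((Primrec.snd.comp Primrec.fst).pair Primrec.snd).pair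
            (Primrec.nat_mul.comp (Primrec.const 2) (Primrec.fst.comp Primrec.fst)))
    refine h2.of_eq fun n => ?_
    constructor
    · rintro ⟨e, i, ⟨h1, h2⟩, h3⟩
      exact ⟨e, h1, i, h2, h3⟩
    · rintro ⟨e, h1, i, h2, h3⟩
      exact ⟨e, i, ⟨h1, h2⟩, h3⟩
  exact h1.re

/-- every column of the complement of `C` has an element -/
theorem exists_not_mem_C (k : ℕ) : ∃ j, Nat.pair k j ∉ C := by
  by_contra hcon
  push Not at hcon
  have h1 : (⋃ e ∈ Finset.range (k + 1), ⋃ i ∈ Finset.range (k + 1), {z | R e i z}).Finite := by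
    refine Set.Finite.biUnion (Finset.finite_toSet _) fun e _ => ?_
    exact Set.Finite.biUnion (Finset.finite_toSet _) fun i _ => R_finite e i
  have h2 : Set.range (fun j : ℕ => 2 * Nat.pair k j) ⊆
      ⋃ e ∈ Finset.range (k + 1), ⋃ i ∈ Finset.range (k + 1), {z | R e i z} := by
    rintro _ ⟨j, rfl⟩
    obtain ⟨e, he, i, hi, h3⟩ := hcon j
    rw [Nat.unpair_pair] at he hi
    simp only [Finset.mem_range, Set.mem_iUnion, exists_prop]
    exact ⟨e, he, i, hi, h3⟩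
  refine Set.infinite_range_of_injective (f := fun j : ℕ => 2 * Nat.pair k j) ?_ (h1.subset h2)
  intro a b hab
  have h3 : Nat.pair k a = Nat.pair k b := by
    have : 2 * Nat.pair k a = 2 * Nat.pair k b := hab
    omega
  have h4 := congrArg (fun n => n.unpair.2) h3
  simpa using h4

/-- The set `{⟨i, j⟩ : i ∈ B, ⟨i, j⟩ ∉ C}`. -/
def A (B : Set ℕ) : Set ℕ := {n | n.unpair.1 ∈ B} ∩ Cᶜ

theorem A_inj {B B' : Set ℕ} (h : A B = A B') : B = B' := by
  have key : ∀ B B' : Set ℕ, A B = A B' → B ⊆ B' := by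
    intro B B' h i hi
    obtain ⟨j, hj⟩ := exists_not_mem_C i
    have h1 : Nat.pair i j ∈ A B := ⟨by simpa using hi, hj⟩
    rw [h] at h1
    simpa using h1.1
  exact Set.Subset.antisymm (key B B' h) (key B' B h.symm)

theorem A_le {B : Set ℕ} (hB : Le Kᶜ B) : Le (A B) B :=
  le_inter (le_of_comp (Computable.fst.comp Primrec.unpair.to_comp))
    (le_trans' (compl_le_K re_C) hB)

/-- The operator with code `c`. -/
def op (c : Code) : Set (ℕ × ℕ) := {p | (c.eval (Nat.pair p.1 p.2)).Dom}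

theorem exists_op {Ψ : Set (ℕ × ℕ)} (h : IsOperator Ψ) : ∃ c, Ψ = op c := by
  obtain ⟨c, hc⟩ := Code.exists_code.1 h
  refine ⟨c, ?_⟩
  ext ⟨x, u⟩
  have h1 : (c.eval (Nat.pair x u)).Dom ↔ (x, u) ∈ Ψ := by
    have h2 : Nat.pair x u = encode (x, u) := rfl
    rw [h2, hc]
    simp [Part.assert]
  exact h1.symm

theorem mem_C_of_supp {c : Code} {m i k j : ℕ} (hm : (supp (op c) i).encard ≤ m)
    (he : Nat.pair (encode c) m ≤ k) (hi : i ≤ k) (h : 2 * Nat.pair k j ∈ supp (op c) i) :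
    Nat.pair k j ∈ C := by
  have hfin : (supp (op c) i).Finite := Set.finite_of_encard_le_coe hm
  have hQ : ∀ s z, Q (Nat.pair (encode c) m) i s z → z ∈ supp (op c) i := by
    rintro s z ⟨u, -, h1, h2⟩
    refine ⟨u, ?_, h2⟩
    rw [Nat.unpair_pair, Denumerable.ofNat_encode] at h1
    obtain ⟨y, hy⟩ := Option.isSome_iff_exists.1 h1
    exact Part.dom_iff_mem.2 ⟨y, Code.evaln_sound hy⟩
  refine ⟨Nat.pair (encode c) m, ?_, i, ?_, ?_⟩
  · rw [Nat.unpair_pair]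
    omega
  · rw [Nat.unpair_pair]
    omega
  · obtain ⟨u, hu, h2⟩ := h
    obtain ⟨y, hy⟩ := Part.dom_iff_mem.1 (show (c.eval (Nat.pair i u)).Dom from hu)
    obtain ⟨t, ht⟩ := Code.evaln_complete.1 hy
    refine ⟨max t (u + 1), hfin.toFinset.toList, ⟨?_, ?_⟩, u, by omega, ?_, h2⟩
    · rw [Finset.length_toList, Nat.unpair_pair]
      have h3 : (hfin.toFinset.card : ℕ∞) ≤ m := by
        rw [← hfin.encard_eq_coe_toFinset_card]
        exact hm
      exact_mod_cast h3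
    · intro z _ hz
      simpa using hQ _ _ hz
    · rw [Nat.unpair_pair, Denumerable.ofNat_encode, Option.isSome_iff_exists]
      exact ⟨y, Code.evaln_mono (le_max_left _ _) ht⟩

/-- A solution of `B = Γ(A B ⊕ Kᶜ)` is determined by a finite part. -/
theorem determined {c : Code} {m : ℕ} (hm : ∀ i, (supp (op c) i).encard ≤ m) {B B' : Set ℕ}
    (hB : B = app (op c) (join (A B) Kᶜ)) (hB' : B' = app (op c) (join (A B') Kᶜ))
    (h : ∀ i < Nat.pair (encode c) m, i ∈ B ↔ i ∈ B') : B = B' := by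
  have key : ∀ i, i ∈ B ↔ i ∈ B' := by
    intro i
    induction i using Nat.strong_induction_on with
    | _ i ih =>
      by_cases hi : i < Nat.pair (encode c) m
      · exact h i hi
      · push Not at hi
        have step : ∀ B B' : Set ℕ, B = app (op c) (join (A B) Kᶜ) →
            B' = app (op c) (join (A B') Kᶜ) → (∀ j < i, j ∈ B ↔ j ∈ B') → i ∈ B → i ∈ B' := by
          intro B B' hB hB' ih hiB
          rw [hB] at hiB
          obtain ⟨u, hu, hD⟩ := hiB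
          rw [hB']
          refine ⟨u, hu, fun z hz => ?_⟩
          have hz2 := hD hz
          rcases Nat.even_or_odd' z with ⟨w, rfl | rfl⟩
          · rw [mem_join_even] at hz2 ⊢
            refine ⟨?_, hz2.2⟩
            by_cases hw : w.unpair.1 < i
            · exact (ih _ hw).1 hz2.1
            · exfalso
              push Not at hw
              refine hz2.2 ?_
              have h1 := mem_C_of_supp (c := c) (m := m) (i := i) (k := w.unpair.1)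
                (j := w.unpair.2) (hm i) (hi.trans hw) hw ⟨u, hu, by rwa [Nat.pair_unpair]⟩
              rwa [Nat.pair_unpair] at h1
          · rw [mem_join_odd] at hz2 ⊢
            exact hz2
        exact ⟨step B B' hB hB' ih, step B' B hB' hB fun j hj => (ih j hj).symm⟩
  ext i
  exact key i

theorem countable_fixed (c : Code) (m : ℕ) (hm : ∀ i, (supp (op c) i).encard ≤ m) :
    {B : Set ℕ | B = app (op c) (join (A B) Kᶜ)}.Countable := by
  classical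
  refine Set.MapsTo.countable_of_injOn (t := (Set.univ : Set (Finset ℕ)))
    (f := fun B : Set ℕ => (Finset.range (Nat.pair (encode c) m)).filter fun i => i ∈ B)
    (fun _ _ => Set.mem_univ _) ?_ (Set.to_countable _)
  intro B hB B' hB' hEq
  refine determined hm hB hB' fun i hi => ?_
  have h1 := Finset.ext_iff.1 hEq i
  simp only [Finset.mem_filter, Finset.mem_range, hi, true_and] at h1
  exact h1

/-- All but countably many sets `B` above `Kᶜ` bound a set strictly between `Kᶜ` and `B`. -/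
theorem countable_exceptions :
    {B : Set ℕ | Le (A B) Kᶜ ∨ Le B (join (A B) Kᶜ)}.Countable := by
  have h1 : {B : Set ℕ | Le (A B) Kᶜ}.Countable := by
    have h2 : {X : Set ℕ | Le X Kᶜ}.Countable := by
      refine Set.Countable.mono (s₂ := Set.range fun c : Code => app (op c) Kᶜ) ?_
        (Set.countable_range _)
      rintro X ⟨Ψ, hΨ, -, rfl⟩
      obtain ⟨c, rfl⟩ := exists_op hΨ
      exact ⟨c, rfl⟩
    exact Set.MapsTo.countable_of_injOn (f := A) (fun B hB => hB)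
      (fun B _ B' _ h => A_inj h) h2
  have h3 : {B : Set ℕ | Le B (join (A B) Kᶜ)}.Countable := by
    refine Set.Countable.mono (s₂ := ⋃ c : Code, ⋃ m : ℕ, ⋃ _ : ∀ i, (supp (op c) i).encard ≤ m,
      {B : Set ℕ | B = app (op c) (join (A B) Kᶜ)}) ?_ ?_
    · rintro B ⟨Ψ, hΨ, ⟨m, hm⟩, hB⟩
      obtain ⟨c, rfl⟩ := exists_op hΨ
      exact Set.mem_iUnion.2 ⟨c, Set.mem_iUnion.2 ⟨m, Set.mem_iUnion.2 ⟨hm, hB⟩⟩⟩
    · exact Set.countable_iUnion fun c => Set.countable_iUnion fun m =>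
        Set.countable_iUnion fun hm => countable_fixed c m hm
  exact (h1.union h3).mono fun B hB => hB

end Q206.Btte
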